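import Pool.Agent.H69.LQ.Lib
import Pool.Agent.H69.LQ.Targets1

/-!
# Board lq1_modules, row BT: balls with close centres
-/

set_option autoImplicit false

open MeasureTheory Metric Set
open scoped ENNReal

open Pool.Agent.H85.LK (E adm lam Ann)
open Pool.Agent.H69.LQ

namespace Pool.Agent.H42.LQ1

theorem pf_BT : T_BT := by
  intro N s hN hs
  have hcont : Continuous fun e : ℝ =>
      ((1 + e) ^ N - (1 - e) ^ N) * volume.real (ball (0 : E N) 1) := by fun_prop
  have h0 : ((1 + (0 : ℝ)) ^ N - (1 - 0) ^ N) * volume.real (ball (0 : E N) 1) < s := by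
    simpa using hs
  have hev := hcont.continuousAt.eventually_lt (continuousAt_const (y := s)) h0
  obtain ⟨δ, hδ, hδ'⟩ := Metric.eventually_nhds_iff.1 hev
  set ε : ℝ := min (δ / 2) (1 / 2) with hε
  have hε0 : 0 < ε := lt_min (by positivity) (by norm_num)
  have hε1 : ε ≤ 1 / 2 := min_le_right _ _
  have hεδ : ε < δ := lt_of_le_of_lt (min_le_left _ _) (by linarith)
  refine ⟨ε, hε0, fun o c hoc => ?_⟩
  have hoc' : dist o c ≤ ε := by rwa [dist_eq_norm]
  have hsub : symmDiff (ball c 1) (ball o 1) ⊆ ball c (1 + ε) \ ball c (1 - ε) := by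
    rintro x (⟨h1, h2⟩ | ⟨h1, h2⟩)
    · rw [mem_ball] at h1 h2
      rw [not_lt] at h2
      refine ⟨?_, ?_⟩
      · rw [mem_ball]
        linarith
      · rw [mem_ball, not_lt]
        have := dist_triangle x c o
        rw [dist_comm c o] at this
        linarith
    · rw [mem_ball] at h1 h2
      rw [not_lt] at h2
      refine ⟨?_, ?_⟩
      · rw [mem_ball]
        have := dist_triangle x o c
        linarith
      · rw [mem_ball, not_lt]
        linarith
  have hfin : ∀ r : ℝ, volume (ball c r) ≠ ⊤ := fun r => measure_ball_lt_top.ne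
  have hball : ∀ r : ℝ, 0 ≤ r →
      volume.real (ball c r) = r ^ N * volume.real (ball (0 : E N) 1) := by
    intro r hr
    have hne : Nonempty (Fin N) := ⟨⟨0, by omega⟩⟩
    unfold Measure.real
    rw [Measure.addHaar_ball _ c hr, ENNReal.toReal_mul, ENNReal.toReal_ofReal (by positivity),
      finrank_euclideanSpace, Fintype.card_fin]
  calc volume.real (symmDiff (ball c 1) (ball o 1))
      ≤ volume.real (ball c (1 + ε) \ ball c (1 - ε)) :=
        measureReal_mono hsub ((measure_mono sdiff_subset).trans_lt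
          (lt_top_iff_ne_top.2 (hfin _))).ne
    _ = volume.real (ball c (1 + ε)) - volume.real (ball c (1 - ε)) :=
        measureReal_sdiff (ball_subset_ball (by linarith)) measurableSet_ball (hfin _)
    _ = ((1 + ε) ^ N - (1 - ε) ^ N) * volume.real (ball (0 : E N) 1) := by
        rw [hball _ (by linarith), hball _ (by linarith)]
        ring
    _ ≤ s := (hδ' (by rw [Real.dist_eq, sub_zero, abs_of_pos hε0]; exact hεδ)).le

end Pool.Agent.H42.LQ1
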