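import Pool.Agent.H69.LQ.Lib
import Pool.Agent.H69.LQ.Targets1

/-!
# Board lq1_modules, row SF: smooth functions near a compact set
-/

set_option autoImplicit false

open MeasureTheory Metric Set
open scoped ENNReal

open Pool.Agent.H85.LK (E adm lam Ann)
open Pool.Agent.H69.LQ

namespace Pool.Agent.H42.LQ1

theorem pf_SF : T_SF := by
  intro N K G η hK hG hKG hη
  have hKfin : volume K ≠ ⊤ := hK.measure_lt_top.ne
  obtain ⟨U, hKU, hU, hUv⟩ := K.exists_isOpen_lt_add (μ := volume) hKfin
    (ε := ENNReal.ofReal η) (by simpa using hη)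
  obtain ⟨L, hL, hKL, hLU⟩ := exists_compact_between hK (hU.inter hG) (subset_inter hKU hKG)
  obtain ⟨f, h1, h0, h01⟩ := exists_contMDiffMap_one_nhds_of_subset_interior (n := (⊤ : ℕ∞))
    (modelWithCornersSelf ℝ (E N)) hK.isClosed hKL
  have hts : tsupport f ⊆ L := by
    refine closure_minimal (fun x hx => ?_) hL.isClosed
    by_contra h
    exact hx (h0 x h)
  have hcs : HasCompactSupport f := hL.of_isClosed_subset (isClosed_tsupport _) hts
  refine ⟨f, f.contMDiff.contDiff, hcs, hts.trans (hLU.trans inter_subset_right),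
    fun x => h01 x, fun x hx => h1.self_of_nhdsSet x hx, ?_⟩
  have hLm : MeasurableSet L := hL.isClosed.measurableSet
  have hLfin : volume L ≠ ⊤ := hL.measure_lt_top.ne
  have hi1 : Integrable f := f.contMDiff.continuous.integrable_of_hasCompactSupport hcs
  have hi2 : Integrable (L.indicator fun _ => (1 : ℝ)) :=
    (integrable_indicator_iff hLm).2 (integrableOn_const hLfin)
  have h2 : ∫ x, f x ≤ ∫ x, L.indicator (fun _ => (1 : ℝ)) x := by
    refine integral_mono hi1 hi2 fun x => ?_
    by_cases hx : x ∈ L
    · rw [indicator_of_mem hx]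
      exact (h01 x).2
    · rw [indicator_of_notMem hx, h0 x hx]
  have h3 : ∫ x, L.indicator (fun _ => (1 : ℝ)) x = volume.real L := by
    rw [integral_indicator hLm, setIntegral_const, smul_eq_mul, mul_one]
  have h4 : volume.real L ≤ volume.real K + η := by
    have h5 : volume L ≤ volume K + ENNReal.ofReal η :=
      (measure_mono (hLU.trans inter_subset_left)).trans hUv.le
    have h6 := ENNReal.toReal_mono (ENNReal.add_ne_top.2 ⟨hKfin, ENNReal.ofReal_ne_top⟩) h5
    rw [ENNReal.toReal_add hKfin ENNReal.ofReal_ne_top, ENNReal.toReal_ofReal hη.le] at h6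
    exact h6
  linarith

end Pool.Agent.H42.LQ1
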